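import Pool.Agent.H11.ZDE.Stmts

/-!
# Module DESC of project ZDE

At a full element, a sink which is not simple gives a smaller sink.
-/

set_option autoImplicit false
set_option linter.unusedSimpArgs false

namespace Pool.Agent.H11.ZDE
open RootLat

namespace Desc

variable {L : Type*} [AddCommGroup L]

section lat
variable (R : RootLat L)

theorem Q_sum (J : Finset L) (c : L) : R.Q (∑ d ∈ J, d) c = ∑ d ∈ J, R.Q d c := by
  classical
  induction J using Finset.induction_on with
  | empty => simp [R.Q_zl]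
  | insert a J ha ih => rw [Finset.sum_insert ha, Finset.sum_insert ha, R.Q_add, ih]

theorem Q_sumr (J : Finset L) (c : L) : R.Q c (∑ d ∈ J, d) = ∑ d ∈ J, R.Q c d := by
  rw [R.Q_comm, Q_sum]
  exact Finset.sum_congr rfl fun d _ => R.Q_comm d c

theorem Q_const (J : Finset L) (c : L) (k : ℤ) (h : ∀ d ∈ J, R.Q c d = k) :
    R.Q c (∑ d ∈ J, d) = k * J.card := by
  rw [Q_sumr, Finset.sum_congr rfl h, Finset.sum_const]
  simp; ring

theorem Q_norm (J : Finset L) (h2 : ∀ d ∈ J, R.Q d d = 2)
    (ho : ∀ d ∈ J, ∀ d' ∈ J, d ≠ d' → R.Q d d' = 0) :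
    R.Q (∑ d ∈ J, d) (∑ d ∈ J, d) = 2 * J.card := by
  classical
  rw [Q_sum]
  have : ∀ d ∈ J, R.Q d (∑ d' ∈ J, d') = 2 := by
    intro d hd
    rw [Q_sumr, Finset.sum_eq_single d (fun d' hd' hne => ho d hd d' hd' (Ne.symm hne))
      (fun h => absurd hd h), h2 d hd]
  rw [Finset.sum_congr rfl this, Finset.sum_const]
  simp; ring

theorem P_sum (φ : L →+ L) (J : Finset L) (s : L) (hs : R.P (φ s)) (h : ∀ d ∈ J, R.P (φ d)) :
    R.P (φ (s + ∑ d ∈ J, d)) := by
  classical
  induction J using Finset.induction_on with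
  | empty => simpa using hs
  | insert a J ha ih =>
    rw [Finset.sum_insert ha]
    have e : s + (a + ∑ d ∈ J, d) = a + (s + ∑ d ∈ J, d) := by abel
    rw [e, map_add]
    exact R.P_add (h a (Finset.mem_insert_self a J))
      (ih fun d hd => h d (Finset.mem_insert_of_mem hd))

end lat

variable {R : RootLat L} (S : Sys R)

/-- from every member of `F` one reaches a sink -/
theorem acyc (hXY : XYStmt S) (x : Module.End ℤ L) (hx : S.A x) (c : L) (hc : S.F x c) :
    ∃ e, S.Sink x e ∧ (e = c ∨ S.Reach x c e) := by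
  classical
  by_contra hcon
  push Not at hcon
  let g : L → L := fun e => if h : ∃ e', S.Arr x e e' then h.choose else e
  have hg : ∀ e, (∃ e', S.Arr x e e') → S.Arr x e (g e) := by
    intro e h
    have : g e = h.choose := dif_pos h
    rw [this]
    exact h.choose_spec
  have hnext : ∀ e, S.F x e → ¬ S.Sink x e → ∃ e', S.Arr x e e' := by
    intro e he hns
    by_contra hno
    apply hns
    refine ⟨he, fun e' he' hq => ?_⟩
    by_contra hv
    apply hno
    refine ⟨e', he, he', hq, ?_, hv⟩
    rcases S.ruleM x e e' hx he he' hq with h | h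
    · exact h
    · exact absurd h hv
  let f : ℕ → L := fun n => g^[n] c
  have f0 : f 0 = c := rfl
  have fs : ∀ n, f (n + 1) = g (f n) := fun n => Function.iterate_succ_apply' g n c
  have key : ∀ n, S.F x (f n) ∧ ∀ j < n, S.Arr x (f j) (f (j + 1)) := by
    intro n
    induction n with
    | zero => exact ⟨hc, fun j hj => absurd hj (Nat.not_lt_zero j)⟩
    | succ n ih =>
      have hns : ¬ S.Sink x (f n) := by
        intro hs
        have h1 := hcon (f n) hs
        rcases Nat.eq_zero_or_pos n with h0 | hpos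
        · exact h1.1 (by rw [h0]; exact f0)
        · exact h1.2 ⟨n, hpos, f, f0, rfl, ih.2⟩
      have harr : S.Arr x (f n) (f (n + 1)) := by
        rw [fs]
        exact hg _ (hnext _ ih.1 hns)
      refine ⟨harr.fc, fun j hj => ?_⟩
      rcases Nat.lt_succ_iff_lt_or_eq.mp hj with h | h
      · exact ih.2 j h
      · rw [h]; exact harr
  have hfin := R.fin.to_subtype
  obtain ⟨i, j, hij, he⟩ := Finite.exists_ne_map_eq_of_infinite
    (fun n => (⟨f n, (key n).1.q⟩ : {a | R.Q a a = 2}))
  have he' : f i = f j := congrArg Subtype.val he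
  have hreach : ∀ i j, i < j → S.Reach x (f i) (f j) := by
    intro i j hij
    refine ⟨j - i, by omega, fun t => f (i + t), rfl, ?_, ?_⟩
    · show f (i + (j - i)) = f j
      rw [Nat.add_sub_cancel' hij.le]
    · intro t _
      exact (key (i + t + 1)).2 (i + t) (Nat.lt_succ_self _)
  rcases lt_or_gt_of_ne hij with h | h
  · exact (hXY x hx _ _ (hreach i j h)).1 he'
  · exact (hXY x hx _ _ (hreach j i h)).1 he'.symm

/-- membership of a summand with positive image -/
theorem low (x : Module.End ℤ L) (b c g : L) (hb : S.F x b) (hc : R.Q c c = 2) (hg : R.Q g g = 2)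
    (hbc : b = c + g) (pg : R.P g) (xc : R.P (x c)) (xg : R.P (x g)) :
    S.V (x * R.r c) := by
  subst hbc
  have hq : R.Q c g = -1 := by
    have := hb.q
    simp only [R.Q_add, R.Q_addr, hc, hg, R.Q_comm g c] at this
    omega
  have hq' : R.Q g c = -1 := by rw [R.Q_comm, hq]
  have h1 : S.V (x * R.r (c + g) * R.r g) := by
    refine S.down _ _ hb.v hg pg ?_
    refine R.P_cast xc ?_
    simp only [Module.End.mul_apply, r_apply, R.Q_addr, hg, hq', map_sub, map_add, map_zsmul]
    module
  have e1 : R.r (c + g) * R.r g = R.r c * R.r (c + g) := by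
    ext v
    simp only [Module.End.mul_apply, r_apply, Q_sub, Q_smul, Q_subr, Q_smulr, Q_add, Q_addr,
      hc, hg, hq, hq']
    module
  have h2 : S.V (x * R.r c * R.r (c + g)) := by
    rw [mul_assoc, ← e1, ← mul_assoc]; exact h1
  have h3 : S.V (x * R.r c * R.r (c + g) * R.r (c + g)) := by
    refine S.down _ _ h2 hb.q hb.p ?_
    refine R.P_cast xg ?_
    simp only [Module.End.mul_apply, r_apply, R.Q_add, R.Q_addr, R.Q_sub, R.Q_smul, hc, hg, hq,
      hq', map_sub, map_add, map_zsmul]
    module
  rw [mul_assoc, R.r_r hb.q, mul_one] at h3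
  exact h3

/-- rule G5 -/
theorem g5 (x : Module.End ℤ L) (b th d e : L) (hth : R.Q th th = 2) (pth : R.P th)
    (hnv : ¬ S.V (x * R.r th)) (hd : R.Q d d = 2) (pd : R.P d) (hthd : R.Q th d = -1)
    (hb : b = th + d) (xb : R.P (x b)) (he : R.Q e e = 2) (pe : R.P e) (xe : R.P (x e))
    (hthe : R.Q th e = 0) (hde : R.Q d e = -1)
    (xde : R.P (x (d + e))) : ¬ S.V (x * R.r e * R.r b) := by
  subst hb
  intro hv
  apply hnv
  have hthd' : R.Q d th = -1 := by rw [R.Q_comm, hthd]
  have hthe' : R.Q e th = 0 := by rw [R.Q_comm, hthe]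
  have hde' : R.Q e d = -1 := by rw [R.Q_comm, hde]
  have h1 : S.V (x * R.r e * R.r (th + d) * R.r th) := by
    refine S.down _ _ hv hth pth ?_
    refine R.P_cast xde ?_
    simp only [Module.End.mul_apply, r_apply, Q_sub, Q_smul, Q_subr, Q_smulr, Q_add, Q_addr,
      hth, hd, he, hthd, hthe, hde, hthd', hthe', hde', map_sub, map_add, map_zsmul]
    module
  have e1 : R.r e * R.r (th + d) * R.r th = R.r th * R.r e * R.r d := by
    ext v
    simp only [Module.End.mul_apply, r_apply, Q_sub, Q_smul, Q_subr, Q_smulr, Q_add, Q_addr,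
      hth, hd, he, hthd, hthe, hde, hthd', hthe', hde']
    module
  have h1' : S.V (x * (R.r th * R.r e * R.r d)) := by
    rw [← e1, ← mul_assoc, ← mul_assoc]; exact h1
  have h2 : S.V (x * (R.r th * R.r e * R.r d) * R.r (d + e)) := by
    refine S.down _ _ h1' ?_ (R.P_add pd pe) ?_
    · simp only [Q_add, Q_addr, hd, he, hde, hde']; norm_num
    · refine R.P_cast xe ?_
      simp only [Module.End.mul_apply, r_apply, Q_sub, Q_smul, Q_subr, Q_smulr, Q_add, Q_addr,
        hth, hd, he, hthd, hthe, hde, hthd', hthe', hde', map_sub, map_add, map_zsmul]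
      module
  have e2 : R.r th * R.r e * R.r d * R.r (d + e) = R.r th * R.r d := by
    ext v
    simp only [Module.End.mul_apply, r_apply, Q_sub, Q_smul, Q_subr, Q_smulr, Q_add, Q_addr,
      hth, hd, he, hthd, hthe, hde, hthd', hthe', hde']
    module
  have h2' : S.V (x * (R.r th * R.r d)) := by
    rw [← e2, ← mul_assoc]; exact h2
  have h3 : S.V (x * (R.r th * R.r d) * R.r d) := by
    refine S.down _ _ h2' hd pd ?_
    refine R.P_cast xb ?_
    simp only [Module.End.mul_apply, r_apply, Q_sub, Q_smul, Q_subr, Q_smulr, Q_add, Q_addr,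
      hth, hd, he, hthd, hthe, hde, hthd', hthe', hde', map_sub, map_add, map_zsmul]
    module
  rw [mul_assoc, mul_assoc, R.r_r hd, mul_one] at h3
  exact h3

/-- decompositions `b = q + sum D` -/
structure Zp (R : RootLat L) (x : Module.End ℤ L) (b q : L) (D : Finset L) : Prop where
  nq : R.Q q q = 2
  p : R.P q
  xp : R.P (x q)
  ne : D.Nonempty
  im : ∀ d ∈ D, R.Im x d
  orth : ∀ d ∈ D, ∀ d' ∈ D, d ≠ d' → R.Q d d' = 0
  qd : ∀ d ∈ D, R.Q q d = -1
  sum : b = q + ∑ d ∈ D, d

theorem zsplit {x : Module.End ℤ L} {b q : L} {D : Finset L} (hZ : Zp R x b q D) {r s : L}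
    (hq : q = r + s) (hr : R.Q r r = 2) (hs : R.Q s s = 2) (pr : R.P r) (ps : R.P s) :
    ∀ d ∈ D, (R.Q r d = -1 ∧ R.Q s d = 0) ∨ (R.Q r d = 0 ∧ R.Q s d = -1) := by
  intro d hd
  have h1 := hZ.qd d hd
  rw [hq, R.Q_add] at h1
  have hi := hZ.im d hd
  have n1 : R.Q r d ≠ -2 := fun h => by
    have := R.eq_neg_of hr hi.q h
    subst this
    exact R.P_neg hi.p pr
  have n2 : R.Q s d ≠ -2 := fun h => by
    have := R.eq_neg_of hs hi.q h
    subst this
    exact R.P_neg hi.p ps
  have c1 := R.Q_cases hr hi.q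
  have c2 := R.Q_cases hs hi.q
  omega

open Classical in
/-- the part of `D` attached to `s` -/
noncomputable def part (R : RootLat L) (s : L) (D : Finset L) : Finset L := D.filter fun d => R.Q s d = -1

theorem mem_part {s : L} {D : Finset L} {d : L} : d ∈ part R s D ↔ d ∈ D ∧ R.Q s d = -1 := by
  classical
  simp [part]

theorem part_norm {x : Module.End ℤ L} {b q : L} {D : Finset L} (hZ : Zp R x b q D) {s : L}
    (hs : R.Q s s = 2) : R.Q (s + ∑ d ∈ part R s D, d) (s + ∑ d ∈ part R s D, d) = 2 := by
  have h1 := Q_const R (part R s D) s (-1) (fun d hd => (mem_part.mp hd).2)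
  have h2 := Q_norm R (part R s D) (fun d hd => (hZ.im d (mem_part.mp hd).1).q)
    (fun d hd d' hd' hne => hZ.orth d (mem_part.mp hd).1 d' (mem_part.mp hd').1 hne)
  rw [R.Q_add, R.Q_addr, R.Q_addr, R.Q_comm (∑ d ∈ part R s D, d) s, h1, h2, hs]
  ring

theorem part_sum {x : Module.End ℤ L} {b q : L} {D : Finset L} (hZ : Zp R x b q D) {r s : L}
    (hq : q = r + s) (hr : R.Q r r = 2) (hs : R.Q s s = 2) (pr : R.P r) (ps : R.P s) :
    ∑ d ∈ part R r D, d + ∑ d ∈ part R s D, d = ∑ d ∈ D, d := by
  classical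
  have h := zsplit hZ hq hr hs pr ps
  have : part R s D = D.filter fun d => ¬ R.Q r d = -1 := by
    ext d
    rw [mem_part, Finset.mem_filter]
    constructor
    · rintro ⟨h1, h2⟩
      exact ⟨h1, fun h3 => by rcases h d h1 with h4 | h4 <;> omega⟩
    · rintro ⟨h1, h2⟩
      exact ⟨h1, by rcases h d h1 with h4 | h4 <;> omega⟩
  rw [this]
  exact Finset.sum_filter_add_sum_filter_not D _ _

theorem zstep {x : Module.End ℤ L} {b q : L} {D : Finset L} (hZ : Zp R x b q D) {r s : L}
    (hq : q = r + s) (hr : R.Q r r = 2) (hs : R.Q s s = 2) (pr : R.P r) (ps : R.P s)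
    (hrs : R.Q r s = -1) (xr : R.P (x r)) (xs : R.P (-(x (s + ∑ d ∈ part R s D, d)))) :
    ∃ D', Zp R x b r D' := by
  classical
  have hsp := zsplit hZ hq hr hs pr ps
  have hnorm := part_norm hZ hs
  set s' := s + ∑ d ∈ part R s D, d with hs'
  have horth : ∀ d ∈ part R r D, R.Q d s' = 0 := by
    intro d hd
    obtain ⟨hdD, hdr⟩ := mem_part.mp hd
    have h0 : R.Q s d = 0 := by rcases hsp d hdD with h | h <;> omega
    rw [hs', R.Q_addr, R.Q_comm d s, h0, Q_const R (part R s D) d 0]
    · ring
    · intro d' hd'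
      obtain ⟨hdD', hds'⟩ := mem_part.mp hd'
      refine hZ.orth d hdD d' hdD' ?_
      rintro rfl
      omega
  have hnotin : s' ∉ part R r D := by
    intro h
    have := horth s' h
    omega
  refine ⟨insert s' (part R r D), hr, pr, xr, Finset.insert_nonempty _ _, ?_, ?_, ?_, ?_⟩
  · intro d hd
    rcases Finset.mem_insert.mp hd with rfl | hd
    · exact ⟨hnorm, P_sum R (AddMonoidHom.id L) _ _ ps
        (fun d hd => (hZ.im d (mem_part.mp hd).1).p), xs⟩
    · exact hZ.im d (mem_part.mp hd).1
  · intro d hd d' hd' hne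
    rcases Finset.mem_insert.mp hd with rfl | hd
    · rcases Finset.mem_insert.mp hd' with rfl | hd'
      · exact absurd rfl hne
      · rw [R.Q_comm]; exact horth d' hd'
    · rcases Finset.mem_insert.mp hd' with rfl | hd'
      · exact horth d hd
      · exact hZ.orth d (mem_part.mp hd).1 d' (mem_part.mp hd').1 hne
  · intro d hd
    rcases Finset.mem_insert.mp hd with rfl | hd
    · rw [R.Q_addr, hrs, Q_const R (part R s D) r 0]
      · ring
      · intro d' hd'
        obtain ⟨hdD', hds'⟩ := mem_part.mp hd'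
        rcases hsp d' hdD' with h | h <;> omega
    · exact (mem_part.mp hd).2
  · rw [Finset.sum_insert hnotin, hZ.sum, ← part_sum hZ hq hr hs pr ps, hq, hs']
    abel

theorem zcard {x : Module.End ℤ L} {b q : L} {D : Finset L} (hZ : Zp R x b q D) : D.card < 4 := by
  have h1 := Q_const R D q (-1) hZ.qd
  have h2 := Q_norm R D (fun d hd => (hZ.im d hd).q) hZ.orth
  have hp : R.P (q + (q + ∑ d ∈ D, d)) :=
    R.P_add hZ.p (P_sum R (AddMonoidHom.id L) _ _ hZ.p (fun d hd => (hZ.im d hd).p))
  have h3 := R.Q_pos _ (R.P_ne hp)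
  simp only [R.Q_add, R.Q_addr, R.Q_comm (∑ d ∈ D, d) q, h1, h2, hZ.nq] at h3
  omega

end Desc

open Desc

/-- module DESC -/
theorem desc_stmt {L : Type*} [AddCommGroup L] {R : RootLat L} (S : Sys R) (hXY : XYStmt S)
    (hD : DStmt S) (hC : CStmt S) : DescStmt S := by
  classical
  intro x hx hfull b hb hbS
  by_contra hcon
  push Not at hcon
  have hiso := S.iso x (S.AV x hx)
  have dich : ∀ a, R.Q a a = 2 → R.P (x a) ∨ R.P (-(x a)) :=
    fun a ha => R.P_root _ (by rw [hiso, ha])
  have hht : ∀ e, R.P (b - e) → R.ht e < R.ht b := by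
    intro e he
    have h1 := R.ht_pos _ he
    have h2 := R.ht_add (b - e) e
    rw [sub_add_cancel] at h2
    omega
  -- (i)
  have h1 : ∀ c q, S.F x c → R.Q q q = 2 → R.P q → b = c + q → False := by
    intro c q hc hq pq hbc
    have hbq : b - c = q := by rw [hbc]; abel
    obtain ⟨e, he, h⟩ := acyc S hXY x hx c hc
    have hlt : R.ht e < R.ht b := by
      rcases h with rfl | h
      · exact hht e (by rw [hbq]; exact pq)
      · exact hht e (hD x hx b c e hb hc (by rw [hbq]; exact hq) (by rw [hbq]; exact pq) h).1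
    exact absurd (hcon e he) (not_le.mpr hlt)
  -- (ii)
  have h2 : ∀ c d d', S.Core x b c d d' → False := by
    intro c d d' hco
    obtain ⟨e, he, h⟩ := acyc S hXY x hx c hco.fc
    have hlt : R.ht e < R.ht b := by
      rcases h with rfl | h
      · refine hht e ?_
        refine R.P_cast (R.P_add hco.id.p hco.id'.p) ?_
        rw [hco.sum]; abel
      · exact hht e (hC x hx b c d d' e hco h).1
    exact absurd (hcon e he) (not_le.mpr hlt)
  have xb := hb.fb.xp
  -- an element with `b - t` an inversion is positive under `x`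
  have main : ∀ n : ℕ, ∀ q D, Zp R x b q D → (R.ht q).toNat = n → False := by
    intro n
    induction n using Nat.strong_induction_on with
    | _ n ih =>
      intro q D hZ hn
      have hpos := R.ht_pos q hZ.p
      -- descent step
      have hF : S.F x q := by
        refine ⟨hZ.nq, hZ.p, hZ.xp, ?_⟩
        by_contra hnv
        have hqS : q ∉ R.S := fun h => hnv (hfull q h hZ.xp)
        obtain ⟨s, hsS, hqs, pr⟩ := R.nonsimple q hZ.nq hZ.p hqS
        have ps := R.S_pos s hsS
        have hs2 := R.S_root s hsS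
        obtain ⟨r, hr⟩ : ∃ r, r = q - s := ⟨_, rfl⟩
        rw [← hr] at pr
        have hq : q = r + s := by rw [hr]; abel
        have hr2 : R.Q r r = 2 := by
          rw [hr]
          simp only [R.Q_sub, R.Q_subr, hZ.nq, hs2, hqs, R.Q_comm s q]; norm_num
        have hrs : R.Q r s = -1 := by
          rw [hr, R.Q_sub, hqs, hs2]; norm_num
        have hsr : R.Q s r = -1 := by rw [R.Q_comm, hrs]
        have hq' : q = s + r := by rw [hq]; abel
        have hth := R.ht_add r s
        rw [← hq] at hth
        have hs1 := R.S_ht s hsS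
        have hrp := R.ht_pos r pr
        have caseA : R.P (x r) → R.P (-(x (s + ∑ d ∈ part R s D, d))) → False := by
          intro xr xs
          obtain ⟨D', hZ'⟩ := zstep hZ hq hr2 hs2 pr ps hrs xr xs
          exact ih _ (by omega) r D' hZ' rfl
        have caseB : R.P (x s) → R.P (-(x (r + ∑ d ∈ part R r D, d))) → False := by
          intro xs xr
          obtain ⟨D', hZ'⟩ := zstep hZ hq' hs2 hr2 ps pr hsr xs xr
          exact ih _ (by omega) s D' hZ' rfl
        have hneg : ∀ t, R.P (-(x t)) → R.P (-(x (t + ∑ d ∈ part R t D, d))) := by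
          intro t ht
          exact P_sum R (-(x.toAddMonoidHom)) (part R t D) t ht
            (fun d hd => (hZ.im d (mem_part.mp hd).1).xn)
        rcases dich s hs2 with xs | xs
        · rcases dich r hr2 with xr | xr
          · -- both positive
            have hsum := part_sum hZ hq hr2 hs2 pr ps
            have hb' : b = (r + ∑ d ∈ part R r D, d) + (s + ∑ d ∈ part R s D, d) := by
              rw [hZ.sum, ← hsum, hq]; abel
            have pr' : R.P (r + ∑ d ∈ part R r D, d) :=
              P_sum R (AddMonoidHom.id L) _ _ pr (fun d hd => (hZ.im d (mem_part.mp hd).1).p)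
            have ps' : R.P (s + ∑ d ∈ part R s D, d) :=
              P_sum R (AddMonoidHom.id L) _ _ ps (fun d hd => (hZ.im d (mem_part.mp hd).1).p)
            have nr' := part_norm hZ hr2
            have ns' := part_norm hZ hs2
            rcases dich _ nr' with xr' | xr'
            · rcases dich _ ns' with xs' | xs'
              · have hv := low S x b _ _ hb.fb nr' ns' hb' ps' xr' xs'
                exact h1 _ _ ⟨nr', pr', xr', hv⟩ ns' ps' hb'
              · exact caseA xr xs'
            · exact caseB xs xr'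
          · exact caseB xs (hneg r xr)
        · refine caseA ?_ (hneg s xs)
          refine R.P_cast (R.P_add hZ.xp xs) ?_
          rw [hr, map_sub]; abel
      have hc := zcard hZ
      have hc0 := Finset.card_pos.mpr hZ.ne
      have hsub : ∀ t d, b = t + d → R.P (-(x d)) → R.P (x t) := by
        intro t d htd hd
        refine R.P_cast (R.P_add xb hd) ?_
        rw [htd, map_add]; abel
      have hcase : D.card = 1 ∨ D.card = 2 ∨ D.card = 3 := by omega
      rcases hcase with hc | hc | hc
      · obtain ⟨d, rfl⟩ := Finset.card_eq_one.mp hc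
        have hi := hZ.im d (by simp)
        have hsum := hZ.sum
        rw [Finset.sum_singleton] at hsum
        exact h1 q d hF hi.q hi.p hsum
      · obtain ⟨d, d', hne, rfl⟩ := Finset.card_eq_two.mp hc
        have hi := hZ.im d (by simp)
        have hi' := hZ.im d' (by simp)
        have hsum := hZ.sum
        rw [Finset.sum_pair hne] at hsum
        have q1 := hZ.qd d (by simp)
        have q2 := hZ.qd d' (by simp)
        have q3 := hZ.orth d (by simp) d' (by simp) hne
        have nv : ∀ d d', R.Im x d → R.Im x d' → R.Q q d = -1 → b = q + (d + d') →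
            ¬ S.V (x * R.r (q + d)) := by
          intro d d' hi hi' hqd hsum hv
          have e : b = (q + d) + d' := by rw [hsum]; abel
          refine h1 (q + d) d' ⟨?_, R.P_add hZ.p hi.p, hsub _ _ e hi'.xn, hv⟩ hi'.q hi'.p e
          simp only [R.Q_add, R.Q_addr, hZ.nq, hi.q, hqd, R.Q_comm d q]; norm_num
        refine h2 q d d' ⟨hb, hF, hi, hi', q3, q1, q2, ?_, nv d d' hi hi' q1 hsum,
          nv d' d hi' hi q2 ?_⟩
        · rw [hsum]; abel
        · rw [hsum]; abel
      · obtain ⟨d1, d2, d3, h12, h13, h23, rfl⟩ := Finset.card_eq_three.mp hc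
        have hi1 := hZ.im d1 (by simp)
        have hi2 := hZ.im d2 (by simp)
        have hi3 := hZ.im d3 (by simp)
        have hsum := hZ.sum
        rw [Finset.sum_insert (by simp [h12, h13]), Finset.sum_pair h23] at hsum
        have q1 := hZ.qd d1 (by simp)
        have q2 := hZ.qd d2 (by simp)
        have q3 := hZ.qd d3 (by simp)
        have o12 := hZ.orth d1 (by simp) d2 (by simp) h12
        have o13 := hZ.orth d1 (by simp) d3 (by simp) h13
        have o23 := hZ.orth d2 (by simp) d3 (by simp) h23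
        have o21 : R.Q d2 d1 = 0 := by rw [R.Q_comm, o12]
        have o31 : R.Q d3 d1 = 0 := by rw [R.Q_comm, o13]
        have o32 : R.Q d3 d2 = 0 := by rw [R.Q_comm, o23]
        have q1' : R.Q d1 q = -1 := by rw [R.Q_comm, q1]
        have q2' : R.Q d2 q = -1 := by rw [R.Q_comm, q2]
        have q3' : R.Q d3 q = -1 := by rw [R.Q_comm, q3]
        have e : b = (q + d1 + d2) + d3 := by rw [hsum]; abel
        have nth : R.Q (q + d1 + d2) (q + d1 + d2) = 2 := by
          simp only [R.Q_add, R.Q_addr, hZ.nq, hi1.q, hi2.q, q1, q2, q1', q2', o12, o21]; norm_num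
        have pth : R.P (q + d1 + d2) := R.P_add (R.P_add hZ.p hi1.p) hi2.p
        have xth : R.P (x (q + d1 + d2)) := hsub _ _ e hi3.xn
        have hnv : ¬ S.V (x * R.r (q + d1 + d2)) := fun hv =>
          h1 _ _ ⟨nth, pth, xth, hv⟩ hi3.q hi3.p e
        have hx3 : R.P (x (d3 + q)) := by
          refine hsub (d3 + q) (d1 + d2) (by rw [hsum]; abel) ?_
          refine R.P_cast (R.P_add hi1.xn hi2.xn) ?_
          rw [map_add]; abel
        refine g5 S x b (q + d1 + d2) d3 q nth pth hnv hi3.q hi3.p ?_ e xb hZ.nq hZ.p hZ.xp ?_ q3'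
          hx3 (hb.s q hF ?_)
        · simp only [R.Q_add, q3, o13, o23]; norm_num
        · simp only [R.Q_add, hZ.nq, q1', q2']; norm_num
        · rw [hsum]; simp only [R.Q_add, hZ.nq, q1', q2', q3']; norm_num
  -- the starting decomposition
  obtain ⟨s, hsS, hbs, pq⟩ := R.nonsimple b hb.fb.q hb.fb.p hbS
  have ps := R.S_pos s hsS
  have hs2 := R.S_root s hsS
  have hq2 : R.Q (b - s) (b - s) = 2 := by
    simp only [R.Q_sub, R.Q_subr, hb.fb.q, hs2, hbs, R.Q_comm s b]; norm_num
  have xs : R.P (-(x s)) := by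
    rcases dich s hs2 with h | h
    · exfalso
      exact h1 s (b - s) ⟨hs2, ps, h, hfull s hsS h⟩ hq2 pq (by abel)
    · exact h
  refine main _ (b - s) {s} ⟨hq2, pq, ?_, Finset.singleton_nonempty s, ?_, ?_, ?_, ?_⟩ rfl
  · refine R.P_cast (R.P_add xb xs) ?_
    rw [map_sub]; abel
  · intro d hd
    rw [Finset.mem_singleton] at hd
    subst hd
    exact ⟨hs2, ps, xs⟩
  · intro d hd d' hd' hne
    rw [Finset.mem_singleton] at hd hd'
    subst hd hd'
    exact absurd rfl hne
  · intro d hd
    rw [Finset.mem_singleton] at hd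
    subst hd
    rw [R.Q_sub, hbs, hs2]; norm_num
  · rw [Finset.sum_singleton]; abel

end Pool.Agent.H11.ZDE
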